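import Pool.Agent.H5.Closed

set_option autoImplicit false

namespace Pool.Agent.Results.MP_304c86_co.Counter

open Pool.Agent.H5.ClosedDefs

theorem result : ∃ (x : ℕ → Bool) (S T : Set ℕ), Aperiodic x ∧ Syndetic S ∧ Thick T ∧
    ∀ n ∈ S ∩ T, (closedFactors x n).encard ≤ 2 :=
  H5.Closed.main

end Pool.Agent.Results.MP_304c86_co.Counter
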